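import Pool.Agent.TH112.BL.Defs
import Pool.Agent.W212.EC.CE
import Pool.Agent.W721.EC.DV
import Pool.Agent.TH575.CW.Ent

/-!
Project BL: entropy decrement for means on bounded functions on `ℕ` and several cocycles.
-/

set_option autoImplicit false

namespace Pool.Agent.TH928.BLJ

open Finset Filter
open Pool.Agent.TH112.BL
open Pool.Agent.W78.EC (ent cE rsf)
open Pool.Agent.W212.EC (ent_mono ent_congr submod ce WW ent_eq WW_pos)

open scoped Classical in
/-- indicator function -/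
noncomputable def ind (P : ℕ → Prop) (n : ℕ) : ℝ := if P n then 1 else 0

lemma ind_congr {P Q : ℕ → Prop} (h : ∀ n, P n ↔ Q n) : ind P = ind Q := by
  have : P = Q := funext fun n => propext (h n)
  rw [this]

lemma ind_nonneg (P : ℕ → Prop) (n : ℕ) : 0 ≤ ind P n := by
  unfold ind; split_ifs <;> norm_num

lemma Bd_ind (P : ℕ → Prop) : Bd (ind P) := by
  refine ⟨1, fun n => ?_⟩
  unfold ind
  split_ifs <;> norm_num

lemma m_zero (μ : LM) : μ.m (fun _ => 0) = 0 := by
  have := μ.smul 0 (fun _ => 1) ⟨1, fun n => by norm_num⟩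
  simpa using this

lemma m_sum (μ : LM) {ι : Type} (s : Finset ι) (c : ι → ℝ) (φ : ι → ℕ → ℝ)
    (h : ∀ i ∈ s, Bd (φ i)) :
    Bd (fun n => ∑ i ∈ s, c i * φ i n) ∧
      μ.m (fun n => ∑ i ∈ s, c i * φ i n) = ∑ i ∈ s, c i * μ.m (φ i) := by
  classical
  induction s using Finset.induction_on with
  | empty => exact ⟨⟨0, fun n => by simp⟩, by simpa using m_zero μ⟩
  | insert i s hi ih =>
    obtain ⟨h1, h2⟩ := ih fun j hj => h j (mem_insert_of_mem hj)
    have h3 : Bd (fun n => c i * φ i n) := by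
      obtain ⟨C, hC⟩ := h i (mem_insert_self i s)
      exact ⟨|c i| * C, fun n => by rw [abs_mul]; exact mul_le_mul_of_nonneg_left (hC n) (abs_nonneg _)⟩
    have e : (fun n => ∑ j ∈ insert i s, c j * φ j n) =
        fun n => c i * φ i n + ∑ j ∈ s, c j * φ j n := by
      funext n
      rw [sum_insert hi]
    rw [e, sum_insert hi]
    constructor
    · obtain ⟨C, hC⟩ := h3
      obtain ⟨C', hC'⟩ := h1
      exact ⟨C + C', fun n => (abs_add_le _ _).trans (add_le_add (hC n) (hC' n))⟩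
    · rw [μ.add _ _ h3 h1, h2, μ.smul _ _ (h i (mem_insert_self i s))]

lemma m_shift (μ : LM) (φ : ℕ → ℝ) (h : Bd φ) (L : ℕ) : μ.m (fun n => φ (n + L)) = μ.m φ := by
  induction L with
  | zero => rfl
  | succ L ih =>
    rw [← ih]
    have h1 : Bd (fun n => φ (n + L)) := by
      obtain ⟨C, hC⟩ := h
      exact ⟨C, fun n => hC _⟩
    rw [← μ.shift _ h1]
    congr 1
    funext n
    congr 1
    ring

/-- entropy of a function on `ℕ` with finitely many values -/
noncomputable def E (μ : LM) {B : Type} (F : ℕ → B) : ℝ :=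
  ∑ᶠ x, Real.negMulLog (μ.m (ind (fun n => F n = x)))

/-- finitely many values -/
def FR {B : Type} (F : ℕ → B) : Prop := (Set.range F).Finite

lemma FR.pair {B C : Type} {F : ℕ → B} {G : ℕ → C} (hF : FR F) (hG : FR G) :
    FR (fun n => (F n, G n)) := by
  unfold FR at *
  refine (hF.prod hG).subset ?_
  rintro _ ⟨n, rfl⟩
  exact ⟨⟨n, rfl⟩, ⟨n, rfl⟩⟩

lemma FR.comp {B C : Type} {F : ℕ → B} (hF : FR F) (g : B → C) : FR (fun n => g (F n)) := by
  unfold FR at *
  refine (hF.image g).subset ?_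
  rintro _ ⟨n, rfl⟩
  exact ⟨F n, ⟨n, rfl⟩, rfl⟩

lemma FR.sh {B : Type} {F : ℕ → B} (hF : FR F) (L : ℕ) : FR (fun n => F (n + L)) := by
  unfold FR at *
  refine hF.subset ?_
  rintro _ ⟨n, rfl⟩
  exact ⟨_, rfl⟩

/-- representation by a finite weighted set -/
lemma rep (μ : LM) {B : Type} (Z : ℕ → B) (hZ : FR Z) : ∃ (s : Finset ℕ) (w : ℕ → ℝ),
    (∀ n ∈ s, 0 ≤ w n) ∧ (∑ n ∈ s, w n = 1) ∧
    (∀ G : ℕ → ℝ, (∀ n m, Z n = Z m → G n = G m) → μ.m G = ∑ n ∈ s, w n * G n) ∧
    (∀ (C : Type) (F : ℕ → C), (∀ n m, Z n = Z m → F n = F m) → E μ F = ent s w F) := by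
  classical
  -- representatives
  have hex : ∀ z : B, ∃ n : ℕ, z ∈ Set.range Z → Z n = z := by
    intro z
    by_cases hz : z ∈ Set.range Z
    · obtain ⟨n, hn⟩ := hz
      exact ⟨n, fun _ => hn⟩
    · exact ⟨0, fun h => absurd h hz⟩
  choose g hg using hex
  have hZ' : (Set.range Z).Finite := hZ
  set t : Finset B := hZ'.toFinset with ht
  have htm : ∀ n, Z n ∈ t := fun n => by rw [ht, Set.Finite.mem_toFinset]; exact ⟨n, rfl⟩
  have htg : ∀ z ∈ t, Z (g z) = z := fun z hz => hg z (by rwa [ht, Set.Finite.mem_toFinset] at hz)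
  set s : Finset ℕ := t.image g with hs
  have hinj : ∀ z ∈ t, ∀ z' ∈ t, g z = g z' → z = z' := by
    intro z hz z' hz' h
    rw [← htg z hz, ← htg z' hz', h]
  set w : ℕ → ℝ := fun n => μ.m (ind (fun k => Z k = Z n)) with hw
  have hG : ∀ G : ℕ → ℝ, (∀ n m, Z n = Z m → G n = G m) → μ.m G = ∑ n ∈ s, w n * G n := by
    intro G hG
    have e : G = fun n => ∑ z ∈ t, G (g z) * ind (fun k => Z k = z) n := by
      funext n
      rw [sum_eq_single (Z n)]
      · unfold ind
        rw [if_pos rfl, mul_one]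
        exact hG _ _ (htg _ (htm n)).symm
      · intro z _ hz
        unfold ind
        rw [if_neg (fun h => hz h.symm), mul_zero]
      · intro h
        exact absurd (htm n) h
    have h1 := (m_sum μ t (fun z => G (g z)) (fun z => ind (fun k => Z k = z))
      (fun z _ => Bd_ind _)).2
    rw [← e] at h1
    rw [h1, hs, sum_image (fun z hz z' hz' h => hinj z hz z' hz' h)]
    refine sum_congr rfl fun z hz => ?_
    rw [hw]
    simp only
    rw [htg z hz, mul_comm]
  have hwn : ∀ n ∈ s, 0 ≤ w n := fun n _ => μ.nonneg _ (Bd_ind _) (ind_nonneg _)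
  refine ⟨s, w, hwn, ?_, hG, ?_⟩
  · have := hG (fun _ => 1) (fun _ _ _ => rfl)
    rw [μ.one] at this
    rw [this]
    simp
  · intro C F hF
    unfold E ent
    have h1 : ∀ x : C, μ.m (ind (fun n => F n = x)) = ∑ ω ∈ s.filter (fun ω => F ω = x), w ω := by
      intro x
      rw [hG (ind (fun n => F n = x)) (fun n m h => by unfold ind; simp only [hF n m h]), sum_filter]
      refine sum_congr rfl fun n _ => ?_
      unfold ind
      split_ifs <;> simp
    simp only [h1]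
    have hsub : (Function.support fun x : C =>
        Real.negMulLog (∑ ω ∈ s.filter (fun ω => F ω = x), w ω)) ⊆ (s.image F : Finset C) := by
      intro x hx
      rw [Function.mem_support] at hx
      by_contra hcon
      apply hx
      have : s.filter (fun ω => F ω = x) = ∅ := by
        rw [filter_eq_empty_iff]
        intro ω hω h
        exact hcon (mem_coe.2 (mem_image.2 ⟨ω, hω, h⟩))
      rw [this]
      simp
    rw [finsum_eq_sum_of_support_subset _ hsub]

lemma E_mono (μ : LM) {B C : Type} (F : ℕ → B) (G : ℕ → C) (hG : FR G)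
    (h : ∀ n m : ℕ, G m = G n → F m = F n) : E μ F ≤ E μ G := by
  obtain ⟨s, w, h1, h2, h3, h4⟩ := rep μ G hG
  rw [h4 _ F (fun n m e => h m n e), h4 _ G (fun n m e => e)]
  exact ent_mono h1 F G fun n _ m _ => h n m

lemma E_congr (μ : LM) {B C : Type} (F : ℕ → B) (G : ℕ → C) (hG : FR G)
    (h : ∀ n m : ℕ, G m = G n ↔ F m = F n) : E μ F = E μ G := by
  obtain ⟨s, w, h1, h2, h3, h4⟩ := rep μ G hG
  rw [h4 _ F (fun n m e => (h m n).1 e), h4 _ G (fun n m e => e)]
  exact ent_congr h1 F G fun n _ m _ => h n m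

lemma E_sub (μ : LM) {B C D : Type} (F : ℕ → B) (G : ℕ → C) (H : ℕ → D) (hF : FR F) (hG : FR G)
    (hH : FR H) :
    E μ (fun n => (F n, (G n, H n))) + E μ G ≤
      E μ (fun n => (F n, G n)) + E μ (fun n => (G n, H n)) := by
  obtain ⟨s, w, h1, h2, h3, h4⟩ := rep μ (fun n => (F n, (G n, H n))) (hF.pair (hG.pair hH))
  rw [h4 _ (fun n => (F n, (G n, H n))) (fun n m e => e),
    h4 _ G (fun n m e => by simp only [Prod.mk.injEq] at e; exact e.2.1),
    h4 _ (fun n => (F n, G n)) (fun n m e => by simp only [Prod.mk.injEq] at e ⊢; exact ⟨e.1, e.2.1⟩),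
    h4 _ (fun n => (G n, H n)) (fun n m e => by simp only [Prod.mk.injEq] at e ⊢; exact e.2)]
  exact submod h1 F G H

lemma E_card (μ : LM) {B C : Type} (F : ℕ → B) (G : ℕ → C) (hF : FR F) (hG : FR G) (k : ℕ)
    (hk : 1 ≤ k) (t : Finset B) (ht : t.card ≤ k) (hFt : ∀ n, F n ∈ t) :
    E μ (fun n => (F n, G n)) ≤ E μ G + Real.log k := by
  obtain ⟨s, w, h1, h2, h3, h4⟩ := rep μ (fun n => (F n, G n)) (hF.pair hG)
  rw [h4 _ (fun n => (F n, G n)) (fun n m e => e),
    h4 _ G (fun n m e => by simp only [Prod.mk.injEq] at e; exact e.2)]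
  have h := (ce ℕ B C Unit s w F G (fun _ => ()) h1).2.2.2.2.2.1 k hk ⟨t, ht, fun n _ => hFt n⟩
  unfold cE at h
  rw [h2, one_mul] at h
  linarith

lemma E_shift (μ : LM) {B : Type} (F : ℕ → B) (L : ℕ) : E μ (fun n => F (n + L)) = E μ F := by
  unfold E
  congr 1
  funext x
  congr 1
  exact m_shift μ (ind (fun n => F n = x)) (Bd_ind _) L

/-- equidistribution gives the full conditional entropy -/
lemma E_equi (μ : LM) {B : Type} (T : ℕ → B) (hT : FR T) (U : ℕ → ℕ) (hU : FR U) (W : ℕ)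
    (hW : 1 ≤ W) (h : ∀ n, μ.m (ind (fun k => (T k, U k) = (T n, U n))) =
      (1 / (W : ℝ)) * μ.m (ind (fun k => T k = T n))) :
    E μ (fun n => (T n, U n)) = E μ T + Real.log W := by
  classical
  obtain ⟨s, w, h1, h2, h3, h4⟩ := rep μ (fun n => (T n, U n)) (hT.pair hU)
  rw [h4 _ (fun n => (T n, U n)) (fun n m e => e),
    h4 _ T (fun n m e => by simp only [Prod.mk.injEq] at e; exact e.1)]
  have hWW : ∀ (C : Type) (F : ℕ → C), (∀ n m, (T n, U n) = (T m, U m) → F n = F m) → ∀ x : C,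
      WW s w F x = μ.m (ind (fun n => F n = x)) := by
    intro C F hF x
    rw [h3 (ind (fun n => F n = x)) (fun n m e => by unfold ind; simp only [hF n m e])]
    unfold WW
    rw [sum_filter]
    refine sum_congr rfl fun n _ => ?_
    unfold ind
    split_ifs <;> simp
  have hW0 : (0 : ℝ) < W := by exact_mod_cast hW
  rw [ent_eq, ent_eq]
  have h5 : ∑ ω ∈ s, w ω * Real.log (WW s w (fun n => (T n, U n)) (T ω, U ω)) =
      ∑ ω ∈ s, (w ω * Real.log (WW s w T (T ω)) - w ω * Real.log W) := by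
    refine sum_congr rfl fun ω hω => ?_
    rcases (h1 ω hω).eq_or_lt with h0 | h0
    · rw [← h0]; simp
    · have a1 := WW_pos h1 T hω h0
      have e1 : WW s w (fun n => (T n, U n)) (T ω, U ω) = (1 / (W : ℝ)) * WW s w T (T ω) := by
        rw [hWW _ (fun n => (T n, U n)) (fun n m e => e), hWW _ T
          (fun n m e => by simp only [Prod.mk.injEq] at e; exact e.1)]
        exact h ω
      rw [e1, Real.log_mul (by positivity) a1.ne', one_div, Real.log_inv]
      ring
  rw [h5, sum_sub_distrib, ← sum_mul, h2]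
  ring

/-! ### The scales -/

/-- product of the primes in `(2^a, 2^b]` -/
def pq (a b : ℕ) : ℕ := ∏ p ∈ QD a b, p

lemma QDp {a b p : ℕ} (h : p ∈ QD a b) : p.Prime := (mem_filter.1 h).2

lemma pq_pos (a b : ℕ) : 0 < pq a b := prod_pos fun _ hp => (QDp hp).pos

lemma QD_succ (i0 i : ℕ) (h : i0 ≤ i) : QD i0 (i + 1) = QD i0 i ∪ QD i (i + 1) :=
  Pool.Agent.TH575.CW.QD_succ i0 i h

lemma QD_disj (i0 i : ℕ) : Disjoint (QD i0 i) (QD i (i + 1)) := Pool.Agent.TH575.CW.QD_disj i0 i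

lemma pq_succ (i0 i : ℕ) (h : i0 ≤ i) : pq i0 (i + 1) = pq i0 i * pq i (i + 1) := by
  unfold pq
  rw [QD_succ i0 i h, prod_union (QD_disj i0 i)]

lemma modpq (a b n m : ℕ) : (∀ p ∈ QD a b, m % p = n % p) ↔ m % pq a b = n % pq a b :=
  Pool.Agent.TH575.CW.modEq_prod (QD a b) (fun _ hp => QDp hp) n m

lemma log_pq (a b : ℕ) : Real.log (pq a b : ℝ) = ∑ p ∈ QD a b, Real.log (p : ℝ) := by
  unfold pq
  push_cast
  apply Real.log_prod
  intro p hp
  have := (QDp hp).pos
  positivity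

/-- residues of all cocycles -/
def Rr {κ : Type} (b : κ → ℕ → ℕ) (M : ℕ) (n : ℕ) : κ → ℕ := fun k => b k n % M

open scoped Classical in
/-- residues of all cocycles but one -/
noncomputable def Vv {κ : Type} (b : κ → ℕ → ℕ) (k₀ : κ) (M : ℕ) (n : ℕ) : κ → ℕ :=
  fun k => if k = k₀ then 0 else b k n % M

lemma Rr_eq {κ : Type} (b : κ → ℕ → ℕ) (M : ℕ) (n m : ℕ) :
    Rr b M n = Rr b M m ↔ ∀ k, b k n % M = b k m % M := funext_iff

lemma Vv_eq {κ : Type} (b : κ → ℕ → ℕ) (k₀ : κ) (M : ℕ) (n m : ℕ) :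
    Vv b k₀ M n = Vv b k₀ M m ↔ ∀ k, k ≠ k₀ → b k n % M = b k m % M := by
  unfold Vv
  constructor
  · intro h k hk
    have := congrFun h k
    simpa [hk] using this
  · intro h
    funext k
    by_cases hk : k = k₀
    · simp [hk]
    · simp [hk, h k hk]

lemma FR_win {A : Type} [Finite A] (W : ℕ) (a : ℕ → A) : FR (win W a) := Set.toFinite _

lemma FR_mod (b : ℕ → ℕ) (M : ℕ) (hM : 0 < M) : FR (fun n => b n % M) := by
  refine (Set.finite_Iio M).subset ?_
  rintro _ ⟨n, rfl⟩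
  exact Nat.mod_lt _ hM

lemma FR_R {κ : Type} [Finite κ] (b : κ → ℕ → ℕ) (M : ℕ) (hM : 0 < M) : FR (Rr b M) := by
  refine (Set.Finite.pi' (fun _ : κ => Set.finite_Iio M)).subset ?_
  rintro _ ⟨n, rfl⟩
  intro k
  exact Nat.mod_lt _ hM

lemma FR_V {κ : Type} [Finite κ] (b : κ → ℕ → ℕ) (k₀ : κ) (M : ℕ) (hM : 0 < M) :
    FR (Vv b k₀ M) := by
  classical
  refine (Set.Finite.pi' (fun _ : κ => Set.finite_Iio M)).subset ?_
  rintro _ ⟨n, rfl⟩
  intro k
  unfold Vv
  simp only [Set.mem_Iio]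
  split_ifs
  · exact hM
  · exact Nat.mod_lt _ hM

section step

variable (μ : LM) {A κ : Type} (a : ℕ → A) (b : κ → ℕ → ℕ) (k₀ : κ) (c : ℕ)

/-- conditional entropy of the window given the residues -/
noncomputable def X (i : ℕ) : ℝ :=
  E μ (fun n => (win (c * 2 ^ i) a n, Rr b (pq 1 i) n)) - E μ (Rr b (pq 1 i))

/-- the deficiency -/
noncomputable def Df (i : ℕ) : ℝ :=
  Real.log (pq i (i + 1)) -
    (E μ (fun n => (b k₀ n % pq i (i + 1), (win (c * 2 ^ i) a n, Vv b k₀ (pq i (i + 1)) n))) -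
      E μ (fun n => (win (c * 2 ^ i) a n, Vv b k₀ (pq i (i + 1)) n)))

variable [Finite A] [Finite κ]

lemma X_nonneg (i : ℕ) : 0 ≤ X μ a b c i := by
  unfold X
  have := E_mono μ (Rr b (pq 1 i)) (fun n => (win (c * 2 ^ i) a n, Rr b (pq 1 i) n))
    ((FR_win _ a).pair (FR_R b _ (pq_pos _ _))) (fun n m h => (Prod.mk.injEq _ _ _ _ ▸ h).2)
  linarith

lemma Df_nonneg (i : ℕ) : 0 ≤ Df μ a b k₀ c i := by
  unfold Df
  have h := E_card μ (fun n => b k₀ n % pq i (i + 1))
    (fun n => (win (c * 2 ^ i) a n, Vv b k₀ (pq i (i + 1)) n)) (FR_mod _ _ (pq_pos _ _))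
    ((FR_win _ a).pair (FR_V b k₀ _ (pq_pos _ _))) (pq i (i + 1)) (pq_pos _ _)
    (range (pq i (i + 1))) (by rw [card_range])
    (fun n => mem_range.2 (Nat.mod_lt _ (pq_pos _ _)))
  linarith

omit [Finite A] [Finite κ] in
/-- the cocycles along a window -/
lemma coc {dd : κ → A → ℕ} (hb : ∀ k n, b k (n + 1) = b k n + dd k (a n)) (k : κ) (n W : ℕ) :
    b k (n + W) = b k n + ∑ j ∈ range W, dd k (a (n + j)) := by
  induction W with
  | zero => simp
  | succ W ih => rw [sum_range_succ, ← add_assoc, ← add_assoc, hb, ih]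

omit [Finite A] [Finite κ] in
lemma coc_eq {dd : κ → A → ℕ} (hb : ∀ k n, b k (n + 1) = b k n + dd k (a n)) (W M n m : ℕ)
    (h : win W a n = win W a m) :
    Rr b M (n + W) = Rr b M (m + W) ↔ Rr b M n = Rr b M m := by
  have h1 : ∀ k, ∑ j ∈ range W, dd k (a (n + j)) = ∑ j ∈ range W, dd k (a (m + j)) := by
    intro k
    refine sum_congr rfl fun j hj => ?_
    have := congrFun h ⟨j, mem_range.1 hj⟩
    unfold win at this
    simp only at this
    rw [this]
  rw [Rr_eq, Rr_eq]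
  refine forall_congr' fun k => ?_
  rw [coc a b hb, coc a b hb, h1 k]
  constructor
  · intro h2
    exact Nat.ModEq.add_right_cancel' _ h2
  · intro h2
    exact Nat.ModEq.add_right _ h2

lemma claim1 {dd : κ → A → ℕ} (hb : ∀ k n, b k (n + 1) = b k n + dd k (a n)) (i : ℕ) :
    X μ a b c (i + 1) ≤
      2 * (E μ (fun n => (win (c * 2 ^ i) a n, Rr b (pq 1 (i + 1)) n)) -
        E μ (Rr b (pq 1 (i + 1)))) := by
  unfold X
  set W := c * 2 ^ i with hW
  have hM := pq_pos 1 (i + 1)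
  set M := pq 1 (i + 1) with hMd
  have hW2 : c * 2 ^ (i + 1) = W + W := by rw [hW, pow_succ]; ring
  have fW : FR (win W a) := FR_win _ _
  have fR : FR (Rr b M) := FR_R b M hM
  have fW' : FR (fun n => win W a (n + W)) := fW.sh W
  have fR' : FR (fun n => Rr b M (n + W)) := fR.sh W
  -- the long window
  have h1 : E μ (fun n => (win (c * 2 ^ (i + 1)) a n, Rr b M n)) ≤
      E μ (fun n => (win W a (n + W), (Rr b M (n + W), win W a n))) := by
    apply E_mono μ _ _ (fW'.pair (fR'.pair fW))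
    intro n m h
    simp only [Prod.mk.injEq] at h ⊢
    refine ⟨?_, (coc_eq a b hb W M m n h.2.2).1 h.2.1⟩
    funext k
    unfold win
    by_cases hk : (k : ℕ) < W
    · have := congrFun h.2.2 ⟨k, hk⟩
      exact this
    · have h5 : (k : ℕ) - W < W := by
        have := k.2
        omega
      have := congrFun h.1 ⟨k - W, h5⟩
      unfold win at this
      simp only at this
      have e1 : m + W + ((k : ℕ) - W) = m + k := by omega
      have e2 : n + W + ((k : ℕ) - W) = n + k := by omega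
      rw [e1, e2] at this
      exact this
  have h2 := E_sub μ (fun n => win W a (n + W)) (fun n => Rr b M (n + W)) (fun n => win W a n)
    fW' fR' fW
  have h3 : E μ (fun n => (Rr b M (n + W), win W a n)) = E μ (fun n => (win W a n, Rr b M n)) := by
    apply E_congr μ _ _ (fW.pair fR)
    intro n m
    simp only [Prod.mk.injEq]
    constructor
    · rintro ⟨x, y⟩
      exact ⟨(coc_eq a b hb W M m n x).2 y, x⟩
    · rintro ⟨x, y⟩
      exact ⟨y, (coc_eq a b hb W M m n y).1 x⟩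
  have h4 : E μ (fun n => (win W a (n + W), Rr b M (n + W))) =
      E μ (fun n => (win W a n, Rr b M n)) := E_shift μ (fun n => (win W a n, Rr b M n)) W
  have h5 : E μ (fun n => Rr b M (n + W)) = E μ (Rr b M) := E_shift μ (Rr b M) W
  linarith

/-- the residues of one cocycle are equidistributed given the others -/
def EQ : Prop := ∀ W : ℕ, 1 ≤ W → ∀ (r : ℕ) (v : κ → ℕ), r < W →
  μ.m (ind (fun n => (∀ k, k ≠ k₀ → b k n % W = v k) ∧ b k₀ n % W = r)) =
    (1 / (W : ℝ)) * μ.m (ind (fun n => ∀ k, k ≠ k₀ → b k n % W = v k))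

lemma full (hE : EQ μ b k₀) (W : ℕ) (hW : 1 ≤ W) :
    E μ (Rr b W) = E μ (Vv b k₀ W) + Real.log W := by
  have fV : FR (Vv b k₀ W) := FR_V b k₀ W hW
  have fU : FR (fun n => b k₀ n % W) := FR_mod _ _ hW
  have h1 := E_equi μ (Vv b k₀ W) fV (fun n => b k₀ n % W) fU W hW (by
    intro n
    have h2 := hE W hW (b k₀ n % W) (fun k => b k n % W) (Nat.mod_lt _ hW)
    have e1 : ind (fun m => (Vv b k₀ W m, b k₀ m % W) = (Vv b k₀ W n, b k₀ n % W)) =
        ind (fun m => (∀ k, k ≠ k₀ → b k m % W = b k n % W) ∧ b k₀ m % W = b k₀ n % W) := by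
      apply ind_congr
      intro m
      rw [Prod.mk.injEq, Vv_eq]
    have e2 : ind (fun m => Vv b k₀ W m = Vv b k₀ W n) =
        ind (fun m => ∀ k, k ≠ k₀ → b k m % W = b k n % W) := by
      apply ind_congr
      intro m
      rw [Vv_eq]
    rw [e1, e2]
    exact h2)
  rw [← h1]
  symm
  apply E_congr μ _ _ (FR_R b W hW)
  intro n m
  simp only [Prod.mk.injEq, Rr_eq, Vv_eq]
  constructor
  · intro h
    exact ⟨fun k _ => h k, h k₀⟩
  · rintro ⟨x, y⟩ k
    by_cases hk : k = k₀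
    · rw [hk]; exact y
    · exact x k hk

lemma claim2 (hE : EQ μ b k₀) (i : ℕ) (hi : 1 ≤ i) :
    Df μ a b k₀ c i ≤ X μ a b c i -
      (E μ (fun n => (win (c * 2 ^ i) a n, Rr b (pq 1 (i + 1)) n)) -
        E μ (Rr b (pq 1 (i + 1)))) := by
  unfold Df X
  have hs := QD_succ 1 i hi
  have hps := pq_succ 1 i hi
  set W := c * 2 ^ i with hW
  set U : ℕ → ℕ := fun n => b k₀ n % pq i (i + 1) with hU
  set V := Vv b k₀ (pq i (i + 1)) with hV
  set R := Rr b (pq 1 i) with hR
  set R' := Rr b (pq 1 (i + 1)) with hR'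
  have fW : FR (win W a) := FR_win _ _
  have fU : FR U := FR_mod _ _ (pq_pos _ _)
  have fV : FR V := FR_V b k₀ _ (pq_pos _ _)
  have fR : FR R := FR_R b _ (pq_pos _ _)
  have fR' : FR R' := FR_R b _ (pq_pos _ _)
  have h1 := E_sub μ U (fun n => (win W a n, V n)) R fU (fW.pair fV) fR
  have h2 : E μ (fun n => (win W a n, R' n)) ≤
      E μ (fun n => (U n, ((win W a n, V n), R n))) := by
    apply E_mono μ _ _ (fU.pair ((fW.pair fV).pair fR))
    intro n m h
    simp only [Prod.mk.injEq] at h ⊢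
    obtain ⟨hu, ⟨hw, hv⟩, hr⟩ := h
    refine ⟨hw, ?_⟩
    rw [hR', Rr_eq]
    intro k
    rw [← modpq]
    intro p hp
    rw [hs, mem_union] at hp
    rcases hp with hp | hp
    · rw [hR, Rr_eq] at hr
      exact (modpq _ _ _ _).2 (hr k) p hp
    · by_cases hk : k = k₀
      · rw [hk]
        exact (modpq _ _ _ _).2 hu p hp
      · rw [hV, Vv_eq] at hv
        exact (modpq _ _ _ _).2 (hv k hk) p hp
  have h3 := E_sub μ V R (win W a) fV fR fW
  have h4 : E μ (fun n => ((win W a n, V n), R n)) = E μ (fun n => (V n, (R n, win W a n))) := by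
    apply E_congr μ _ _ (fV.pair (fR.pair fW))
    intro n m
    simp only [Prod.mk.injEq]
    tauto
  have h5 : E μ (fun n => (R n, win W a n)) = E μ (fun n => (win W a n, R n)) := by
    apply E_congr μ _ _ (fW.pair fR)
    intro n m
    simp only [Prod.mk.injEq]
    tauto
  have h6 : E μ (fun n => (V n, R n)) + Real.log (pq i (i + 1)) ≤ E μ R' := by
    rw [hR', full μ b k₀ hE (pq 1 (i + 1)) (pq_pos _ _), hps]
    have hc := E_card μ (fun n => b k₀ n % pq 1 i) (Vv b k₀ (pq 1 (i + 1)))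
      (FR_mod _ _ (pq_pos _ _)) (FR_V b k₀ _ (pq_pos _ _)) (pq 1 i) (pq_pos _ _)
      (range (pq 1 i)) (by rw [card_range]) (fun n => mem_range.2 (Nat.mod_lt _ (pq_pos _ _)))
    have hm : E μ (fun n => (V n, R n)) ≤
        E μ (fun n => (b k₀ n % pq 1 i, Vv b k₀ (pq 1 (i + 1)) n)) := by
      apply E_mono μ _ _ ((FR_mod _ _ (pq_pos _ _)).pair (FR_V b k₀ _ (pq_pos _ _)))
      intro n m h
      simp only [Prod.mk.injEq] at h ⊢
      obtain ⟨hu, hv⟩ := h
      rw [Vv_eq] at hv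
      have hv' : ∀ k, k ≠ k₀ → ∀ p ∈ QD 1 (i + 1), b k m % p = b k n % p :=
        fun k hk => (modpq _ _ _ _).2 (hv k hk)
      constructor
      · rw [hV, Vv_eq]
        intro k hk
        rw [← modpq]
        intro p hp
        exact hv' k hk p (by rw [hs]; exact mem_union_right _ hp)
      · rw [hR, Rr_eq]
        intro k
        by_cases hk : k = k₀
        · rw [hk]; exact hu
        · rw [← modpq]
          intro p hp
          exact hv' k hk p (by rw [hs]; exact mem_union_left _ hp)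
    have hl : Real.log ((pq 1 i * pq i (i + 1) : ℕ) : ℝ) =
        Real.log (pq 1 i) + Real.log (pq i (i + 1)) := by
      push_cast
      have p1 : (0 : ℝ) < pq 1 i := by exact_mod_cast pq_pos _ _
      have p2 : (0 : ℝ) < pq i (i + 1) := by exact_mod_cast pq_pos _ _
      rw [Real.log_mul p1.ne' p2.ne']
    rw [hl, ← hps]
    linarith
  linarith

lemma X_init [Fintype A] [Nonempty A] : X μ a b c 1 ≤ 2 * (c * Real.log (Fintype.card A)) := by
  classical
  unfold X
  have hc : 0 < Fintype.card A := Fintype.card_pos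
  have h := E_card μ (win (c * 2 ^ 1) a) (Rr b (pq 1 1)) (FR_win _ a) (FR_R b _ (pq_pos _ _))
    (Fintype.card A ^ (c * 2 ^ 1)) (Nat.one_le_iff_ne_zero.2 (pow_pos hc _).ne') univ
    (by rw [card_univ, Fintype.card_fun, Fintype.card_fin]) (fun _ => mem_univ _)
  have h2 : Real.log ((Fintype.card A ^ (c * 2 ^ 1) : ℕ) : ℝ) =
      2 * (c * Real.log (Fintype.card A)) := by
    push_cast
    rw [Real.log_pow]
    push_cast
    ring
  rw [h2] at h
  linarith

lemma sum_Df {dd : κ → A → ℕ} (hb : ∀ k n, b k (n + 1) = b k n + dd k (a n)) (hE : EQ μ b k₀)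
    (K : ℕ) (hK : 1 ≤ K) :
    ∑ i ∈ Ico 1 K, Df μ a b k₀ c i / 2 ^ i ≤ X μ a b c 1 / 2 - X μ a b c K / 2 ^ K := by
  induction K, hK using Nat.le_induction with
  | base => simp
  | succ K hK ih =>
    rw [sum_Ico_succ_top hK]
    have h2 := claim1 μ a b c hb K
    have h3 := claim2 μ a b k₀ c hE K hK
    have h4 : Df μ a b k₀ c K / 2 ^ K ≤ X μ a b c K / 2 ^ K - X μ a b c (K + 1) / 2 ^ (K + 1) := by
      have h5 : (0 : ℝ) < 2 ^ K := by positivity
      have h6 : X μ a b c (K + 1) / 2 ^ (K + 1) = (X μ a b c (K + 1) / 2) / 2 ^ K := by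
        rw [pow_succ]; field_simp
      rw [h6, ← sub_div]
      apply div_le_div_of_nonneg_right _ h5.le
      linarith
    linarith

/-- there are pairs of consecutive good scales -/
lemma good [Fintype A] [Nonempty A] {dd : κ → A → ℕ}
    (hb : ∀ k n, b k (n + 1) = b k n + dd k (a n)) (hE : EQ μ b k₀)
    (η : ℝ) (hη : 0 < η) (I : ℕ) (hI : 1 ≤ I) : ∃ i, I ≤ i ∧
      Df μ a b k₀ c i ≤ η * 2 ^ i / i ∧ Df μ a b k₀ c (i + 1) ≤ η * 2 ^ (i + 1) / (i + 1 : ℕ) := by
  by_contra hcon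
  push Not at hcon
  set f : ℕ → ℝ := fun i => Df μ a b k₀ c i / 2 ^ i with hf
  have hf0 : ∀ i, 0 ≤ f i := fun i => div_nonneg (Df_nonneg μ a b k₀ c i) (by positivity)
  have h1 : ∀ i, I ≤ i → η * (1 / ((i : ℝ) + 1)) ≤ f i + f (i + 1) := by
    intro i hi
    have hi0 : (1 : ℝ) ≤ i := by exact_mod_cast hI.trans hi
    by_cases h : Df μ a b k₀ c i ≤ η * 2 ^ i / i
    · have h2 := hcon i hi h
      have h3 : η * (1 / ((i : ℝ) + 1)) ≤ f (i + 1) := by
        rw [hf]
        simp only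
        rw [le_div_iff₀ (by positivity)]
        refine le_trans (le_of_eq ?_) h2.le
        push_cast
        ring
      linarith [hf0 i]
    · push Not at h
      have h3 : η * (1 / ((i : ℝ) + 1)) ≤ f i := by
        rw [hf]
        simp only
        rw [le_div_iff₀ (by positivity)]
        refine le_trans ?_ h.le
        rw [mul_one_div, div_mul_eq_mul_div]
        apply div_le_div_of_nonneg_left (by positivity) (by positivity) (by linarith)
      linarith [hf0 (i + 1)]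
  have hX : ∀ K, 1 ≤ K → ∑ i ∈ Ico 1 K, f i ≤ c * Real.log (Fintype.card A) := by
    intro K hK
    have h2 := sum_Df μ a b k₀ c hb hE K hK
    have h3 := X_init μ a b c
    have h4 : 0 ≤ X μ a b c K / 2 ^ K := div_nonneg (X_nonneg μ a b c K) (by positivity)
    refine h2.trans ?_
    linarith
  have h2 : ∀ K, I ≤ K → η * ∑ i ∈ Ico I K, (1 / ((i : ℝ) + 1)) ≤
      2 * (c * Real.log (Fintype.card A)) := by
    intro K hK
    rw [mul_sum]
    have h3 : ∑ i ∈ Ico I K, η * (1 / ((i : ℝ) + 1)) ≤ ∑ i ∈ Ico I K, (f i + f (i + 1)) :=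
      sum_le_sum fun i hi => h1 i (mem_Ico.1 hi).1
    rw [sum_add_distrib] at h3
    have h4 : ∑ i ∈ Ico I K, f i ≤ ∑ i ∈ Ico 1 K, f i := by
      apply sum_le_sum_of_subset_of_nonneg
      · intro i hi
        rw [mem_Ico] at hi ⊢
        omega
      · intro i _ _
        exact hf0 i
    have h5 : ∑ i ∈ Ico I K, f (i + 1) ≤ ∑ i ∈ Ico 1 (K + 1), f i := by
      rw [sum_Ico_add' f I K 1]
      apply sum_le_sum_of_subset_of_nonneg
      · intro i hi
        rw [mem_Ico] at hi ⊢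
        omega
      · intro i _ _
        exact hf0 i
    have h6 := hX K (hI.trans hK)
    have h7 := hX (K + 1) (by omega)
    linarith
  have hdiv := Real.tendsto_sum_range_one_div_nat_succ_atTop
  set S : ℝ := ∑ i ∈ range I, (1 / ((i : ℝ) + 1)) with hS
  obtain ⟨K, hK⟩ := (hdiv.eventually_gt_atTop
    (S + 2 * (c * Real.log (Fintype.card A)) / η)).and (eventually_ge_atTop I) |>.exists
  obtain ⟨hK1, hK2⟩ := hK
  have h8 := h2 K hK2
  have h9 := sum_range_add_sum_Ico (fun i : ℕ => 1 / ((i : ℝ) + 1)) hK2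
  rw [← h9] at hK1
  have h10 : 2 * (c * Real.log (Fintype.card A)) / η < ∑ i ∈ Ico I K, (1 / ((i : ℝ) + 1)) := by
    linarith
  rw [div_lt_iff₀ hη] at h10
  linarith

omit [Finite A] [Finite κ] in
lemma ε_bound {ε κ' : ℝ} (hε : 0 < ε) (hκ : κ' = ε / 30) (i : ℕ) (hi1 : 1 ≤ i)
    (h2 : (i : ℝ) / 2 ^ i < κ' * ε / 3) (D : ℝ) (hD : D ≤ (κ' * ε / 3) * 2 ^ i / i) (τ : ℝ)
    (hτ : τ = κ' * 2 ^ i / i) (S : ℝ) (hS : S ≤ 5 * (i : ℝ) / (2 : ℝ) ^ i) :
    1 / τ * (Real.log 2 + D) + τ * 2 * S ≤ ε := by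
  have hκ0 : 0 < κ' := by rw [hκ]; positivity
  have hir : (1 : ℝ) ≤ i := by exact_mod_cast hi1
  have h2i : (0 : ℝ) < 2 ^ i := by positivity
  have hτ0 : 0 < τ := by rw [hτ]; positivity
  have h1 : 1 / τ * (Real.log 2 + D) ≤ ε / 3 + ε / 3 := by
    have h3 := Real.log_two_lt_d9
    have h4 : 1 / τ = i / (κ' * 2 ^ i) := by
      rw [hτ]; field_simp
    rw [h4, mul_add]
    apply add_le_add
    · rw [div_lt_iff₀ h2i] at h2
      rw [div_mul_eq_mul_div, div_le_iff₀ (by positivity)]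
      have h5 : (i : ℝ) * Real.log 2 ≤ i * 1 := by
        apply mul_le_mul_of_nonneg_left _ (by positivity)
        linarith
      rw [mul_one] at h5
      refine h5.trans (h2.le.trans (le_of_eq ?_))
      ring
    · refine (mul_le_mul_of_nonneg_left hD (by positivity)).trans (le_of_eq ?_)
      field_simp
  have h2 : τ * 2 * S ≤ ε / 3 := by
    have h4 : τ * 2 * S ≤ τ * 2 * (5 * i / 2 ^ i) := mul_le_mul_of_nonneg_left hS (by positivity)
    have h5 : τ * 2 * (5 * i / 2 ^ i) = ε / 3 := by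
      rw [hτ, hκ]; field_simp; ring
    rw [h5] at h4
    exact h4
  linarith

/-- decoupling at a good scale -/
lemma scale {ε κ' : ℝ} (hε : 0 < ε) (hκ : κ' = ε / 30) (i : ℕ) (hi1 : 1 ≤ i)
    (h2 : (i : ℝ) / 2 ^ i < κ' * ε / 3) (hD : Df μ a b k₀ c i ≤ (κ' * ε / 3) * 2 ^ i / i)
    (Ψ : ℕ → ℕ → ℕ → ℝ) (hΨ : ∀ p n r, |Ψ p n r| ≤ 1)
    (hΨ' : ∀ p ∈ QD i (i + 1), ∀ n n' r : ℕ, win (c * 2 ^ i) a n = win (c * 2 ^ i) a n' →
      (∀ q ∈ QD i (i + 1), ∀ k, k ≠ k₀ → b k n % q = b k n' % q) → Ψ p n r = Ψ p n' r) :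
    μ.m (fun n => |∑ p ∈ QD i (i + 1), Real.log p / 2 ^ i *
      (Ψ p n (b k₀ n % p) - (∑ r ∈ range p, Ψ p n r) / p)|) ≤ ε := by
  classical
  have hκ0 : 0 < κ' := by rw [hκ]; positivity
  have hir : (1 : ℝ) ≤ i := by exact_mod_cast hi1
  set W := c * 2 ^ i with hW
  set U : ℕ → ℕ := fun n => b k₀ n % pq i (i + 1) with hU
  set V := Vv b k₀ (pq i (i + 1)) with hV
  set D : ℕ → (Fin W → A) × (κ → ℕ) := fun n => (win W a n, V n) with hDd
  have fW : FR (win W a) := FR_win _ _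
  have fU : FR U := FR_mod _ _ (pq_pos _ _)
  have fV : FR V := FR_V b k₀ _ (pq_pos _ _)
  have fD : FR D := fW.pair fV
  obtain ⟨s, w, r1, r2, r3, r4⟩ := rep μ (fun n => (U n, D n)) (fU.pair fD)
  -- dependence on `D`
  have hΨD : ∀ p ∈ QD i (i + 1), ∀ n n' r : ℕ, D n = D n' → Ψ p n r = Ψ p n' r := by
    intro p hp n n' r h
    rw [hDd] at h
    simp only [Prod.mk.injEq] at h
    refine hΨ' p hp n n' r h.1 ?_
    have hv := h.2
    rw [hV, Vv_eq] at hv
    intro q hq k hk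
    exact (modpq _ _ _ _).2 (hv k hk) q hq
  set ζ : ℕ → (Fin W → A) × (κ → ℕ) → ℕ → ℝ := fun p d r =>
    if h : ∃ n, D n = d then Ψ p h.choose r else 0 with hζ
  have hζD : ∀ p ∈ QD i (i + 1), ∀ n r : ℕ, ζ p (D n) r = Ψ p n r := by
    intro p hp n r
    have h : ∃ n', D n' = D n := ⟨n, rfl⟩
    rw [hζ]
    simp only
    rw [dif_pos h]
    exact hΨD p hp _ _ r h.choose_spec
  have hζ1 : ∀ p d r, |ζ p d r| ≤ 1 := by
    intro p d r
    rw [hζ]
    simp only
    split_ifs with h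
    · exact hΨ _ _ _
    · simp
  set τ : ℝ := κ' * 2 ^ i / i with hτ
  have hτ0 : 0 < τ := by positivity
  have key := Pool.Agent.W721.ECV.dv ℕ ((Fin W → A) × (κ → ℕ)) ℕ s w D (QD i (i + 1))
    (fun n p => b k₀ n % p) (fun p => range p) (fun p => Real.log p / 2 ^ i) ζ 1 τ
    r1 (fun n _ p hp => by
      rw [mem_range]
      exact Nat.mod_lt _ (QDp hp).pos) hζ1 hτ0
  rw [r2] at key
  simp only [one_mul, card_range, one_pow, mul_one] at key
  have e1 : μ.m (fun n => |∑ p ∈ QD i (i + 1), Real.log p / 2 ^ i *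
      (Ψ p n (b k₀ n % p) - (∑ r ∈ range p, Ψ p n r) / p)|) =
      ∑ n ∈ s, w n * |∑ p ∈ QD i (i + 1), Real.log p / 2 ^ i *
      (ζ p (D n) (b k₀ n % p) - (∑ r ∈ range p, ζ p (D n) r) / p)| := by
    rw [r3]
    · refine sum_congr rfl fun n _ => ?_
      congr 2
      refine sum_congr rfl fun p hp => ?_
      simp only [hζD p hp]
    · intro n m h
      rw [Prod.mk.injEq] at h
      have hu : ∀ p ∈ QD i (i + 1), b k₀ n % p = b k₀ m % p := by
        have := h.1
        rw [hU] at this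
        exact (modpq _ _ _ _).2 this
      congr 1
      refine sum_congr rfl fun p hp => ?_
      simp only [hΨD p hp n m _ h.2, hu p hp]
  have e2 : cE s w (rsf (QD i (i + 1)) (fun n p => b k₀ n % p)) D =
      ∑ p ∈ QD i (i + 1), Real.log p - Df μ a b k₀ c i := by
    have hrs : ∀ n m : ℕ, rsf (QD i (i + 1)) (fun n p => b k₀ n % p) m =
        rsf (QD i (i + 1)) (fun n p => b k₀ n % p) n ↔ U m = U n := by
      intro n m
      rw [hU]
      simp only
      rw [← modpq]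
      unfold rsf
      constructor
      · intro h p hp
        have := congrFun h p
        simpa [hp] using this
      · intro h
        funext p
        by_cases hp : p ∈ QD i (i + 1)
        · simp [hp, h p hp]
        · simp [hp]
    have c1 : ent s w (fun n => (rsf (QD i (i + 1)) (fun n p => b k₀ n % p) n, D n)) =
        E μ (fun n => (U n, D n)) := by
      rw [r4 _ (fun n => (U n, D n)) (fun n m e => e)]
      symm
      apply ent_congr r1
      intro n _ m _
      simp only [Prod.mk.injEq, hrs]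
    have c2 : ent s w D = E μ D :=
      (r4 _ D (fun n m e => by rw [Prod.mk.injEq] at e; exact e.2)).symm
    unfold cE Df
    rw [c1, c2, log_pq]
    ring
  rw [e2] at key
  have e3 : (∑ p ∈ QD i (i + 1), Real.log (p : ℝ) + Real.log 2) -
      (∑ p ∈ QD i (i + 1), Real.log (p : ℝ) - Df μ a b k₀ c i) = Real.log 2 + Df μ a b k₀ c i := by
    ring
  rw [e3] at key
  rw [e1]
  exact key.trans (ε_bound hε hκ i hi1 h2 _ hD τ hτ _ (Pool.Agent.TH575.CW.sq_QD i hi1))

end step

end Pool.Agent.TH928.BLJ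

namespace Pool.Agent.TH112.BL

open Finset Filter
open Pool.Agent.TH928.BLJ

open scoped Classical in
/-- decoupling at pairs of consecutive scales -/
theorem decouple_TH928 (μ : LM) {A κ : Type} [Fintype A] [Nonempty A] [Fintype κ] (a : ℕ → A)
    (b : κ → ℕ → ℕ) (dd : κ → A → ℕ) (hb : ∀ k n, b k (n + 1) = b k n + dd k (a n)) (k₀ : κ)
    (heq : ∀ W : ℕ, 1 ≤ W → ∀ (r : ℕ) (v : κ → ℕ), r < W →
      μ.m (fun n => if (∀ k, k ≠ k₀ → b k n % W = v k) ∧ b k₀ n % W = r then 1 else 0) =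
        (1 / (W : ℝ)) * μ.m (fun n => if ∀ k, k ≠ k₀ → b k n % W = v k then 1 else 0))
    (c : ℕ) (ε : ℝ) (hε : 0 < ε) (i₁ : ℕ) :
    ∃ i : ℕ, i₁ ≤ i ∧ ∀ i' : ℕ, i ≤ i' → i' ≤ i + 1 → ∀ Ψ : ℕ → ℕ → ℕ → ℝ,
      (∀ p n r, |Ψ p n r| ≤ 1) →
      (∀ p ∈ QD i' (i' + 1), ∀ n n' r : ℕ, win (c * 2 ^ i') a n = win (c * 2 ^ i') a n' →
        (∀ q ∈ QD i' (i' + 1), ∀ k, k ≠ k₀ → b k n % q = b k n' % q) → Ψ p n r = Ψ p n' r) →
      μ.m (fun n => |∑ p ∈ QD i' (i' + 1), Real.log p / 2 ^ i' *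
        (Ψ p n (b k₀ n % p) - (∑ r ∈ range p, Ψ p n r) / p)|) ≤ ε := by
  have hE : EQ μ b k₀ := by
    intro W hW r v hr
    have h := heq W hW r v hr
    have e1 : ind (fun n => (∀ k, k ≠ k₀ → b k n % W = v k) ∧ b k₀ n % W = r) =
        fun n => if (∀ k, k ≠ k₀ → b k n % W = v k) ∧ b k₀ n % W = r then 1 else 0 := by
      funext n
      unfold ind
      split_ifs <;> rfl
    have e2 : ind (fun n => ∀ k, k ≠ k₀ → b k n % W = v k) =
        fun n => if ∀ k, k ≠ k₀ → b k n % W = v k then 1 else 0 := by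
      funext n
      unfold ind
      split_ifs <;> rfl
    rw [e1, e2]
    exact h
  set κ' : ℝ := ε / 30 with hκ
  have hκ0 : 0 < κ' := by positivity
  have hη0 : 0 < κ' * ε / 3 := by positivity
  have hlim : Filter.Tendsto (fun i : ℕ => (i : ℝ) / 2 ^ i) Filter.atTop (nhds 0) := by
    have := tendsto_pow_const_div_const_pow_of_one_lt 1 (show (1 : ℝ) < 2 by norm_num)
    simpa using this
  obtain ⟨i2, hi2⟩ := Filter.eventually_atTop.1 (hlim.eventually_lt_const hη0)
  obtain ⟨i, hiI, hg1, hg2⟩ := good μ a b k₀ c hb hE (κ' * ε / 3) hη0 (max i₁ (max i2 1))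
    (le_trans (le_max_right _ _) (le_max_right _ _))
  have hi_1 : i₁ ≤ i := (le_max_left _ _).trans hiI
  have hi_2 : i2 ≤ i := ((le_max_left _ _).trans (le_max_right _ _)).trans hiI
  have hi_3 : 1 ≤ i := ((le_max_right _ _).trans (le_max_right _ _)).trans hiI
  refine ⟨i, hi_1, ?_⟩
  intro i' h1 h2 Ψ hΨ hΨ'
  rcases Nat.eq_or_lt_of_le h1 with h | h
  · subst h
    exact scale μ a b k₀ c hε hκ i hi_3 (hi2 i hi_2) hg1 Ψ hΨ hΨ'
  · have h' : i' = i + 1 := by omega
    subst h'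
    exact scale μ a b k₀ c hε hκ (i + 1) (by omega) (hi2 (i + 1) (by omega)) hg2 Ψ hΨ hΨ'

end Pool.Agent.TH112.BL
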